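import Pool.Agent.H6.BS.Seq
import Pool.Agent.H6.BS.Engine
import Pool.Graph.R_seed8.Helper41.BS.ExistBM

set_option autoImplicit false

/-!
# Non-uniqueness for all indefinite generators `p |z¹|² - q |z²|²`, with double exponential moments

For all `p, q > 0` and `γ < 2 min (p, q)`, every probability space with a two-dimensional Brownian
motion, every `T > 0` and every interval `[a, b]` there is a terminal value `ξ` with
`E exp (exp (γ |ξ|)) < ∞` such that for every `c ∈ [a, b]` the BSDE with generator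
`p |z¹|² - q |z²|²` and terminal value `ξ` has a solution with `Y_0 = c` and
`E sup_t exp (exp (γ |Y_t|)) < ∞`.

Idea: cut `[0, T)` into intervals accumulating at `T`. On each of them only one coordinate of the
Brownian motion is used, and `exp (2 p Y)` or `exp (-2 q Y)` is a martingale. At its end either `Y`
is frozen at a value `± v_n`, `v_n ~ log n`, or the game goes on; then `Y` has moved by about
`log 2 / (2 p)` or `- log 2 / (2 q)`. The order of the two kinds of intervals is that of a bounded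
walk with these two steps (in general it is not periodic), so that a whole interval of initial
values remains bounded and is compatible with the same frozen values.
-/

namespace Pool.Agent.Results.MP_a80562_pr.IndefiniteForms

open MeasureTheory ProbabilityTheory Set Filter Pool.Agent.Helper807.BS
open scoped NNReal ENNReal Topology

universe u

theorem exp_le_exp_exp {γ m x : ℝ} (hγ : 0 < γ) (hx : 0 ≤ x) :
    Real.exp (m * x) ≤ Real.exp (m ^ 2 / (2 * γ ^ 2)) * Real.exp (Real.exp (γ * x)) := by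
  rw [← Real.exp_add]
  apply Real.exp_le_exp.2
  have h1 : (γ * x) ^ 2 / 2 ≤ Real.exp (γ * x) := by
    have h2 := Real.quadratic_le_exp_of_nonneg (x := γ * x) (by positivity)
    have h3 : 0 ≤ γ * x := by positivity
    linarith
  have h4 : m * x ≤ m ^ 2 / (2 * γ ^ 2) + (γ * x) ^ 2 / 2 := by
    have h5 : m ^ 2 / (2 * γ ^ 2) + (γ * x) ^ 2 / 2 - m * x = (m / γ - γ * x) ^ 2 / 2 := by
      field_simp
      ring
    have h6 : 0 ≤ (m / γ - γ * x) ^ 2 / 2 := by positivity
    linarith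
  linarith

theorem main (Ω : Type u) [MeasurableSpace Ω] (P : Measure Ω) [IsProbabilityMeasure P]
    (B : Fin 2 → ℝ≥0 → Ω → ℝ) (hB : IsBM2 B P) (T : ℝ) (hT : 0 < T) (p q : ℝ) (hp : 0 < p)
    (hq : 0 < q) (γ : ℝ) (hγ : 0 < γ) (hγp : γ < 2 * p) (hγq : γ < 2 * q) (a b : ℝ) :
    ∃ ξ : Ω → ℝ, Measurable[Fil B P T, borel ℝ] ξ ∧
      Integrable (fun ω => Real.exp (Real.exp (γ * |ξ ω|))) P ∧
      (∀ μ : ℝ, 0 < μ → Integrable (fun ω => Real.exp (μ * |ξ ω|)) P) ∧
      ∀ c ∈ Icc a b, ∃ (Y : ℝ → Ω → ℝ) (Z : Fin 2 → ℝ → Ω → ℝ),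
        IsSol T P B (fun z => p * |z 0| ^ 2 - q * |z 1| ^ 2) ξ Y Z ∧
        (∀ ω, Y 0 ω = c) ∧
        (∀ μ : ℝ, 0 < μ → ClassD T P (Fil B P) (fun t ω => Real.exp (μ * |Y t ω|))) ∧
        ∃ S : Ω → ℝ, Integrable S P ∧
          ∀ t ω, Real.exp (Real.exp (γ * |Y t ω|)) ≤ S ω := by
  have hg : (fun z : Fin 2 → ℝ => ∑ i, (![2 * p, -(2 * q)] : Fin 2 → ℝ) i / 2 * (z i) ^ 2) =
      fun z => p * |z 0| ^ 2 - q * |z 1| ^ 2 := by
    funext z
    simp [Fin.sum_univ_two]
    ring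
  have hμ : 0 < min (2 * p) (2 * q) := lt_min (by linarith) (by linarith)
  obtain ⟨idx, v, H1⟩ := Pool.Agent.H6.BS.indef_family (![2 * p, -(2 * q)] : Fin 2 → ℝ) 0 1
    (min (2 * p) (2 * q)) hμ (by simp) (by simp) γ hγ (lt_min hγp hγq) a (max a b)
  obtain ⟨ξ, hξ, H⟩ := Pool.Agent.H6.BS.engineF P B hB T hT idx
    (![2 * p, -(2 * q)] : Fin 2 → ℝ) v
  have hΦ0 : ∀ x : ℝ, 0 ≤ Real.exp (Real.exp (γ * x)) := fun x => (Real.exp_pos _).le
  have hΦ : ∀ x y : ℝ, 0 ≤ x → x ≤ y →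
      Real.exp (Real.exp (γ * x)) ≤ Real.exp (Real.exp (γ * y)) := fun x y _ h =>
    Real.exp_le_exp.2 (Real.exp_le_exp.2 (mul_le_mul_of_nonneg_left h hγ.le))
  have hsum : ∀ w : ℕ → ℝ, Summable (fun n => (1 / 2 : ℝ) ^ n *
      Real.exp (Real.exp (γ * max (max |w n| |w (n + 1)|) |v n|))) → ∀ m : ℝ,
      Summable (fun n => (1 / 2 : ℝ) ^ n * Real.exp (m * max (max |w n| |w (n + 1)|) |v n|)) := by
    intro w hw m
    refine Summable.of_nonneg_of_le (fun n => by positivity) (fun n => ?_)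
      (hw.mul_left (Real.exp (m ^ 2 / (2 * γ ^ 2))))
    have h1 := exp_le_exp_exp (γ := γ) (m := m) hγ
      ((abs_nonneg (v n)).trans (le_max_right (max |w n| |w (n + 1)|) |v n|))
    have h2 : (0 : ℝ) ≤ (1 / 2 : ℝ) ^ n := by positivity
    have h3 := mul_le_mul_of_nonneg_left h1 h2
    linarith
  refine ⟨ξ, hξ, ?_, ?_, ?_⟩
  · obtain ⟨w, hw0, hw1, hw2⟩ := H1 a le_rfl (le_max_left _ _)
    obtain ⟨Y, Z, hs, hY0, hD, hF⟩ := H w hw1
    obtain ⟨S, hSi, -, hSξ⟩ := hF (fun x => Real.exp (Real.exp (γ * x))) hΦ0 hΦ hw2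
    obtain ⟨-, hμi⟩ := hD 1 one_pos (hsum w hw2 1)
    have hξm : AEStronglyMeasurable ξ P := by
      have h1 := hμi.aestronglyMeasurable
      have h2 : Measurable[Fil B P T, borel ℝ] ξ := hξ
      have h3 : Fil B P T ≤ (inferInstance : MeasurableSpace Ω) := by
        obtain ⟨W, hW, -, -⟩ := exists_cbm_good P B hB T hT idx
        exact hW.le T
      have h4 : Measurable ξ := by
        have h5 : (inferInstance : MeasurableSpace ℝ) = borel ℝ := BorelSpace.measurable_eq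
        have h6 := h2.mono h3 le_rfl
        rw [← h5] at h6
        exact h6
      exact h4.aestronglyMeasurable
    have hcont : Continuous (fun x : ℝ => Real.exp (Real.exp (γ * |x|))) := by fun_prop
    refine Integrable.mono' hSi (hcont.comp_aestronglyMeasurable hξm) ?_
    filter_upwards [hSξ] with ω hω
    rw [Real.norm_eq_abs, abs_of_pos (Real.exp_pos _)]
    exact hω
  · intro μ hμ'
    obtain ⟨w, hw0, hw1, hw2⟩ := H1 a le_rfl (le_max_left _ _)
    obtain ⟨Y, Z, hs, hY0, hD, hF⟩ := H w hw1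
    exact (hD μ hμ' (hsum w hw2 μ)).2
  · intro c hc
    obtain ⟨w, hw0, hw1, hw2⟩ := H1 c hc.1 (hc.2.trans (le_max_right _ _))
    obtain ⟨Y, Z, hs, hY0, hD, hF⟩ := H w hw1
    rw [hg] at hs
    obtain ⟨S, hSi, hSY, -⟩ := hF (fun x => Real.exp (Real.exp (γ * x))) hΦ0 hΦ hw2
    exact ⟨Y, Z, hs, fun ω => by rw [hY0, hw0], fun μ hμ' => (hD μ hμ' (hsum w hw2 μ)).1,
      S, hSi, hSY⟩

/-- Some complete probability space carries a two-dimensional Brownian motion. For every
probability space with a two-dimensional Brownian motion, every `T > 0`, all `p, q > 0`, every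
`γ < 2 min (p, q)` and all real `a < b` there is a terminal value `ξ` with
`E exp (exp (γ |ξ|)) < ∞` (in particular with all exponential moments) such that for every
`c ∈ [a, b]` the BSDE with generator `p |z¹|² - q |z²|²` has a solution with `Y_0 = c`, for which
`exp (μ |Y|)` is of class (D) for every `μ > 0` and even `sup_t exp (exp (γ |Y_t|))` is bounded by
an integrable random variable. -/
theorem result :
    (∃ (Ω : Type) (_ : MeasurableSpace Ω) (P : Measure Ω), IsProbabilityMeasure P ∧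
      P.IsComplete ∧ ∃ B : Fin 2 → ℝ≥0 → Ω → ℝ, IsBM2 B P) ∧
    ∀ (Ω : Type u) (_ : MeasurableSpace Ω) (P : Measure Ω) (_ : IsProbabilityMeasure P)
      (B : Fin 2 → ℝ≥0 → Ω → ℝ), IsBM2 B P → ∀ T : ℝ, 0 < T → ∀ p q : ℝ, 0 < p → 0 < q →
      ∀ γ : ℝ, 0 < γ → γ < 2 * min p q → ∀ a b : ℝ, a < b →
      ∃ ξ : Ω → ℝ, Measurable[Fil B P T, borel ℝ] ξ ∧
        Integrable (fun ω => Real.exp (Real.exp (γ * |ξ ω|))) P ∧
        (∀ μ : ℝ, 0 < μ → Integrable (fun ω => Real.exp (μ * |ξ ω|)) P) ∧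
        ∀ c ∈ Icc a b, ∃ (Y : ℝ → Ω → ℝ) (Z : Fin 2 → ℝ → Ω → ℝ),
          IsSol T P B (fun z => p * |z 0| ^ 2 - q * |z 1| ^ 2) ξ Y Z ∧
          (∀ ω, Y 0 ω = c) ∧
          (∀ μ : ℝ, 0 < μ → ClassD T P (Fil B P) (fun t ω => Real.exp (μ * |Y t ω|))) ∧
          ∃ S : Ω → ℝ, Integrable S P ∧
            ∀ t ω, Real.exp (Real.exp (γ * |Y t ω|)) ≤ S ω :=
  ⟨Pool.Agent.Helper41.BS.exists_bm2, fun Ω _ P _ B hB T hT p q hp hq γ hγ hγm a b _ =>
    main Ω P B hB T hT p q hp hq γ hγ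
      (lt_of_lt_of_le hγm (mul_le_mul_of_nonneg_left (min_le_left _ _) (by norm_num)))
      (lt_of_lt_of_le hγm (mul_le_mul_of_nonneg_left (min_le_right _ _) (by norm_num))) a b⟩

end Pool.Agent.Results.MP_a80562_pr.IndefiniteForms
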